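import Pool.Agent.P.MP_5d374e_co.Defs

set_option autoImplicit false

namespace Pool.Agent.P.MP_5d374e_co

open Finset

/-- Transport of sliding graphs along a graph embedding that matches the two families. -/
theorem slide_iso {V V' : Type} [DecidableEq V] [DecidableEq V'] (G : SimpleGraph V)
    (G' : SimpleGraph V') (f : G ↪g G') (P : Finset V → Prop) (P' : Finset V' → Prop)
    (hcard : ∀ S T, P S → P T → S.card = T.card)
    (h : ∀ T, P' T ↔ ∃ S, P S ∧ T = S.map f.toEmbedding) :
    Nonempty (slideGraph G P ≃g slideGraph G' P') := by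
  let φ : {S // P S} → {T // P' T} := fun S => ⟨S.1.map f.toEmbedding, (h _).2 ⟨S.1, S.2, rfl⟩⟩
  have hinj : Function.Injective φ := fun S T hST =>
    Subtype.ext (Finset.map_injective _ (congrArg Subtype.val hST))
  have hsurj : Function.Surjective φ := by
    rintro ⟨T, hT⟩
    obtain ⟨S, hS, rfl⟩ := (h T).1 hT
    exact ⟨⟨S, hS⟩, rfl⟩
  have key : ∀ X Y : {S // P S}, X ≠ Y →
      ((∃ u v : V', G'.Adj u v ∧ (φ Y).1 = ((φ X).1 \ {u}) ∪ {v}) ↔
        ∃ u v : V, G.Adj u v ∧ Y.1 = (X.1 \ {u}) ∪ {v}) := by
    intro X Y hne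
    constructor
    · rintro ⟨u, v, huv, hY⟩
      have hv : v ∈ (φ Y).1 := by rw [hY]; simp
      obtain ⟨v₀, -, rfl⟩ := Finset.mem_map.1 hv
      have hu : u ∈ (φ X).1 := by
        by_contra hu
        have hsub : (φ X).1 ⊆ (φ Y).1 := by
          rw [hY]
          intro a ha
          have : a ≠ u := fun hh => hu (hh ▸ ha)
          simp [ha, this]
        have hc : (φ Y).1.card ≤ (φ X).1.card := by
          simp [φ, hcard _ _ X.2 Y.2]
        exact hne (hinj (Subtype.ext (Finset.eq_of_subset_of_card_le hsub hc)))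
      obtain ⟨u₀, -, rfl⟩ := Finset.mem_map.1 hu
      refine ⟨u₀, v₀, f.map_adj_iff.1 huv, ?_⟩
      apply Finset.map_injective f.toEmbedding
      rw [Finset.map_union, Finset.map_sdiff, Finset.map_singleton, Finset.map_singleton]
      exact hY
    · rintro ⟨u, v, huv, hY⟩
      refine ⟨f u, f v, f.map_adj_iff.2 huv, ?_⟩
      change Y.1.map f.toEmbedding = (X.1.map f.toEmbedding \ {f u}) ∪ {f v}
      rw [hY, Finset.map_union, Finset.map_sdiff, Finset.map_singleton, Finset.map_singleton]
      rfl
  refine ⟨⟨Equiv.ofBijective φ ⟨hinj, hsurj⟩, ?_⟩⟩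
  intro X Y
  simp only [slideGraph, SimpleGraph.fromRel_adj, Equiv.ofBijective_apply]
  by_cases hXY : X = Y
  · simp [hXY]
  · rw [key X Y hXY, key Y X (Ne.symm hXY)]
    simp [hXY, hinj.ne hXY]

lemma maximal_indep_iff {V : Type} (G : SimpleGraph V) (S : Set V) :
    Maximal G.IsIndepSet S ↔ G.IsIndepSet S ∧ ∀ v, v ∉ S → ∃ u ∈ S, G.Adj u v := by
  constructor
  · intro h
    refine ⟨h.1, fun v hv => ?_⟩
    by_contra hc
    push Not at hc
    have : G.IsIndepSet (insert v S) := by
      refine Set.Pairwise.insert h.1 fun b hb _ => ⟨fun hh => hc b hb hh.symm, hc b hb⟩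
    exact hv (h.2 this (Set.subset_insert _ _) (Set.mem_insert _ _))
  · rintro ⟨h1, h2⟩
    refine ⟨h1, fun T hT hST v hv => ?_⟩
    by_contra hvS
    obtain ⟨u, hu, huv⟩ := h2 v hvS
    exact hT (hST hu) hv huv.ne huv

/-- A seed on any finite type can be moved to `Fin n`. -/
theorem iRealizable_of_seed {W V : Type} [Fintype V] [DecidableEq V] (H : SimpleGraph W)
    (G : SimpleGraph V) (h : Nonempty (H ≃g slideGraph G (IsISet G))) : IRealizable H := by
  obtain ⟨e₀⟩ := h
  let e : V ≃ Fin (Fintype.card V) := Fintype.equivFin V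
  let G' : SimpleGraph (Fin (Fintype.card V)) := G.comap e.symm
  let f : G ↪g G' := ⟨e.toEmbedding, by intro a b; simp [G']⟩
  have hmax : ∀ S : Finset V, Maximal G'.IsIndepSet ((S.map f.toEmbedding : Finset _) : Set _) ↔
      Maximal G.IsIndepSet (S : Set V) := by
    intro S
    rw [maximal_indep_iff, maximal_indep_iff]
    refine and_congr ?_ ?_
    · constructor
      · intro h a ha b hb hab hadj
        exact h (Finset.mem_coe.2 (Finset.mem_map_of_mem _ ha))
          (Finset.mem_coe.2 (Finset.mem_map_of_mem _ hb)) (fun hh => hab (e.injective hh))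
          (f.map_adj_iff.2 hadj)
      · intro h a ha b hb hab hadj
        obtain ⟨a, ha', rfl⟩ := Finset.mem_map.1 ha
        obtain ⟨b, hb', rfl⟩ := Finset.mem_map.1 hb
        exact h ha' hb' (fun hh => hab (by rw [hh])) (f.map_adj_iff.1 hadj)
    · constructor
      · intro h v hv
        obtain ⟨u, hu, huv⟩ := h (f v) (fun hh => hv (by simpa using hh))
        obtain ⟨u, hu', rfl⟩ := Finset.mem_map.1 hu
        exact ⟨u, hu', f.map_adj_iff.1 huv⟩
      · intro h v hv
        obtain ⟨v, rfl⟩ := e.surjective v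
        obtain ⟨u, hu, huv⟩ := h v (fun hh => hv (Finset.mem_map_of_mem f.toEmbedding hh))
        exact ⟨f u, Finset.mem_map_of_mem f.toEmbedding hu, f.map_adj_iff.2 huv⟩
  have hall : ∀ T : Finset (Fin (Fintype.card V)), ∃ S : Finset V, T = S.map f.toEmbedding :=
    fun T => ⟨T.map e.symm.toEmbedding, by
      ext a
      simp only [Finset.mem_map, f]
      constructor
      · intro ha
        exact ⟨e.symm a, ⟨a, ha, rfl⟩, by simp⟩
      · rintro ⟨_, ⟨b, hb, rfl⟩, rfl⟩
        simpa using hb⟩
  obtain ⟨e₁⟩ := slide_iso G G' f (IsISet G) (IsISet G')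
    (fun S T hS hT => le_antisymm (hS.2 T hT.1) (hT.2 S hS.1)) (by
      intro T
      obtain ⟨S, rfl⟩ := hall T
      constructor
      · intro hT
        refine ⟨S, ⟨(hmax S).1 hT.1, fun S' hS' => ?_⟩, rfl⟩
        simpa using hT.2 _ ((hmax S').2 hS')
      · rintro ⟨S', hS', hSS'⟩
        obtain rfl := Finset.map_injective _ hSS'
        refine ⟨(hmax S).2 hS'.1, fun T' hT' => ?_⟩
        obtain ⟨S'', rfl⟩ := hall T'
        simpa using hS'.2 _ ((hmax S'').1 hT'))
  exact ⟨_, G', ⟨e₀.trans e₁⟩⟩

/-- The extension that kills all vertex sets of size below `k` as dominating sets. -/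
def ext {V : Type} (G : SimpleGraph V) (k : ℕ) :
    SimpleGraph (V ⊕ ({S : Finset V // S.card < k} × Fin (k + 1))) where
  Adj
    | .inl a, .inl b => G.Adj a b
    | .inl a, .inr p => a ∉ p.1.1
    | .inr p, .inl a => a ∉ p.1.1
    | .inr p, .inr q => p.1 ≠ q.1
  symm := ⟨by
    rintro (a | p) (b | q) h
    · exact h.symm
    · exact h
    · exact h
    · exact Ne.symm h⟩
  loopless := ⟨by
    rintro (a | p) h
    · exact G.loopless.irrefl a h
    · exact h rfl⟩

theorem iRealizable_of_alphaRealizable {W : Type} (H : SimpleGraph W) (h : AlphaRealizable H) :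
    IRealizable H := by
  classical
  obtain ⟨n, G, ⟨e₀⟩⟩ := h
  obtain ⟨A, hA⟩ := G.maximumIndepSet_exists
  set k := A.card with hk
  let f : G ↪g ext G k := ⟨Function.Embedding.inl, by intro a b; rfl⟩
  have halpha : ∀ S : Finset (Fin n), IsAlphaSet G S ↔ G.IsIndepSet (S : Set _) ∧ S.card = k := by
    intro S
    constructor
    · intro hS
      exact ⟨hS.1, le_antisymm (hA.maximum S hS.1) (hS.2 A hA.isIndepSet)⟩
    · rintro ⟨h1, h2⟩
      exact ⟨h1, fun T hT => h2 ▸ hA.maximum T hT⟩
  -- images of alpha-sets are maximal independent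
  have himg : ∀ S : Finset (Fin n), IsAlphaSet G S →
      Maximal (ext G k).IsIndepSet ((S.map f.toEmbedding : Finset _) : Set _) := by
    intro S hS
    rw [maximal_indep_iff]
    constructor
    · intro a ha b hb hab hadj
      obtain ⟨a, ha', rfl⟩ := Finset.mem_map.1 ha
      obtain ⟨b, hb', rfl⟩ := Finset.mem_map.1 hb
      exact hS.1 ha' hb' (fun hh => hab (by rw [hh])) (f.map_adj_iff.1 hadj)
    · rintro (v | p) hv
      · have hv' : v ∉ S := fun hh => hv (Finset.mem_map_of_mem f.toEmbedding hh)
        have hm := SimpleGraph.IsMaximumIndepSet.isMaximalIndepSet (G := G) S ⟨hS.1, hS.2⟩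
        obtain ⟨u, hu, huv⟩ := ((maximal_indep_iff G _).1 hm).2 v hv'
        exact ⟨.inl u, Finset.mem_map_of_mem f.toEmbedding hu, huv⟩
      · have : ¬ S ⊆ p.1.1 := fun hsub => by
          have h1 := Finset.card_le_card hsub
          have h2 := p.1.2
          have h3 := ((halpha S).1 hS).2
          omega
        obtain ⟨u, hu, hu'⟩ := Finset.not_subset.1 this
        exact ⟨.inl u, Finset.mem_map_of_mem f.toEmbedding hu, hu'⟩
  -- every maximal independent set is such an image or has more than k elements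
  have hmax : ∀ T : Finset (Fin n ⊕ ({S : Finset (Fin n) // S.card < k} × Fin (k + 1))),
      Maximal (ext G k).IsIndepSet (T : Set _) →
      (∃ S, IsAlphaSet G S ∧ T = S.map f.toEmbedding) ∨ k < T.card := by
    intro T hT
    rw [maximal_indep_iff] at hT
    by_cases hr : ∃ p, Sum.inr p ∈ T
    · right
      obtain ⟨p, hp⟩ := hr
      have hall : ∀ j : Fin (k + 1), Sum.inr (p.1, j) ∈ T := by
        intro j
        by_contra hj
        obtain ⟨u, hu, huv⟩ := hT.2 _ hj
        have hne : u ≠ Sum.inr p := by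
          rintro rfl
          exact huv rfl
        refine hT.1 hu hp hne ?_
        rcases u with a | q
        · exact huv
        · exact huv
      have hsub : (Finset.univ : Finset (Fin (k + 1))).map
          ⟨fun j => Sum.inr (p.1, j), fun a b hab => by simpa using hab⟩ ⊆ T := by
        intro a ha
        obtain ⟨j, -, rfl⟩ := Finset.mem_map.1 ha
        exact hall j
      have := Finset.card_le_card hsub
      simp at this
      omega
    · left
      push Not at hr
      let S : Finset (Fin n) := Finset.univ.filter fun a => Sum.inl a ∈ T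
      have hTS : T = S.map f.toEmbedding := by
        ext (a | p)
        · simp [S, f]
        · simp [S, f, hr p]
      have hSi : G.IsIndepSet (S : Set _) := by
        intro a ha b hb hab hadj
        have ha' : Sum.inl a ∈ T := by simpa [S] using ha
        have hb' : Sum.inl b ∈ T := by simpa [S] using hb
        exact hT.1 ha' hb' (by simpa using hab) hadj
      refine ⟨S, (halpha S).2 ⟨hSi, le_antisymm (hA.maximum S hSi) ?_⟩, hTS⟩
      by_contra hlt
      push Not at hlt
      obtain ⟨u, hu, huv⟩ := hT.2 (Sum.inr (⟨S, hlt⟩, 0)) (hr _)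
      rcases u with a | q
      · exact huv (by simpa [S] using hu)
      · exact hr q hu
  have hAa : IsAlphaSet G A := ⟨hA.isIndepSet, hA.maximum⟩
  obtain ⟨e₁⟩ := slide_iso G (ext G k) f (IsAlphaSet G) (IsISet (ext G k))
    (fun S T hS hT => le_antisymm (hT.2 S hS.1) (hS.2 T hT.1)) (by
      intro T
      constructor
      · intro hT
        rcases hmax T hT.1 with h | h
        · exact h
        · have := hT.2 _ (himg A hAa)
          simp at this
          omega
      · rintro ⟨S, hS, rfl⟩
        refine ⟨himg S hS, fun T' hT' => ?_⟩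
        have h3 := ((halpha S).1 hS).2
        rcases hmax T' hT' with ⟨S', hS', rfl⟩ | h
        · have h4 := ((halpha S').1 hS').2
          simp [h3, h4]
        · simp [h3]
          omega)
  exact iRealizable_of_seed H (ext G k) ⟨e₀.trans e₁⟩

end Pool.Agent.P.MP_5d374e_co
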