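import Mathlib

set_option autoImplicit false

namespace Pool.Agent.P.MP_5d374e_co

/-- An `i`-set of `G`: a maximal independent set of smallest size among maximal independent
sets. -/
def IsISet {V : Type} (G : SimpleGraph V) (S : Finset V) : Prop :=
  Maximal G.IsIndepSet (S : Set V) ∧
    ∀ T : Finset V, Maximal G.IsIndepSet (T : Set V) → S.card ≤ T.card

/-- An `α`-set of `G`: an independent set of largest size. -/
def IsAlphaSet {V : Type} (G : SimpleGraph V) (S : Finset V) : Prop :=
  G.IsIndepSet (S : Set V) ∧ ∀ T : Finset V, G.IsIndepSet (T : Set V) → T.card ≤ S.card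

/-- The token sliding graph on the vertex sets with property `P`: distinct `X`, `Y` are adjacent
iff one is obtained from the other as `(X \ {u}) ∪ {v}` for an edge `uv` of `G`. -/
def slideGraph {V : Type} [DecidableEq V] (G : SimpleGraph V) (P : Finset V → Prop) :
    SimpleGraph {S : Finset V // P S} :=
  SimpleGraph.fromRel fun X Y => ∃ u v : V, G.Adj u v ∧ Y.1 = (X.1 \ {u}) ∪ {v}

/-- `H` is isomorphic to the `i`-graph of some finite graph. -/
def IRealizable {W : Type} (H : SimpleGraph W) : Prop :=
  ∃ (n : ℕ) (G : SimpleGraph (Fin n)), Nonempty (H ≃g slideGraph G (IsISet G))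

/-- `H` is isomorphic to the `α`-graph of some finite graph. -/
def AlphaRealizable {W : Type} (H : SimpleGraph W) : Prop :=
  ∃ (n : ℕ) (G : SimpleGraph (Fin n)), Nonempty (H ≃g slideGraph G (IsAlphaSet G))

end Pool.Agent.P.MP_5d374e_co
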