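import Pool.Agent.P.MP_5d374e_co.AlphaToI

set_option autoImplicit false

namespace Pool.Agent.P.MP_5d374e_co

open Finset

theorem alphaRealizable_of_seed {W V : Type} [Fintype V] [DecidableEq V] (H : SimpleGraph W)
    (G : SimpleGraph V) (h : Nonempty (H ≃g slideGraph G (IsAlphaSet G))) :
    AlphaRealizable H := by
  obtain ⟨e₀⟩ := h
  let e : V ≃ Fin (Fintype.card V) := Fintype.equivFin V
  let G' : SimpleGraph (Fin (Fintype.card V)) := G.comap e.symm
  let f : G ↪g G' := ⟨e.toEmbedding, by intro a b; simp [G']⟩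
  have hind : ∀ S : Finset V, G'.IsIndepSet ((S.map f.toEmbedding : Finset _) : Set _) ↔
      G.IsIndepSet (S : Set V) := by
    intro S
    constructor
    · intro h a ha b hb hab hadj
      exact h (Finset.mem_coe.2 (Finset.mem_map_of_mem _ ha))
        (Finset.mem_coe.2 (Finset.mem_map_of_mem _ hb)) (fun hh => hab (e.injective hh))
        (f.map_adj_iff.2 hadj)
    · intro h a ha b hb hab hadj
      obtain ⟨a, ha', rfl⟩ := Finset.mem_map.1 ha
      obtain ⟨b, hb', rfl⟩ := Finset.mem_map.1 hb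
      exact h ha' hb' (fun hh => hab (by rw [hh])) (f.map_adj_iff.1 hadj)
  have hall : ∀ T : Finset (Fin (Fintype.card V)), ∃ S : Finset V, T = S.map f.toEmbedding :=
    fun T => ⟨T.map e.symm.toEmbedding, by
      ext a
      simp only [Finset.mem_map, f]
      constructor
      · intro ha
        exact ⟨e.symm a, ⟨a, ha, rfl⟩, by simp⟩
      · rintro ⟨_, ⟨b, hb, rfl⟩, rfl⟩
        simpa using hb⟩
  obtain ⟨e₁⟩ := slide_iso G G' f (IsAlphaSet G) (IsAlphaSet G')
    (fun S T hS hT => le_antisymm (hT.2 S hS.1) (hS.2 T hT.1)) (by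
      intro T
      obtain ⟨S, rfl⟩ := hall T
      constructor
      · intro hT
        refine ⟨S, ⟨(hind S).1 hT.1, fun S' hS' => ?_⟩, rfl⟩
        simpa using hT.2 _ ((hind S').2 hS')
      · rintro ⟨S', hS', hSS'⟩
        obtain rfl := Finset.map_injective _ hSS'
        refine ⟨(hind S).2 hS'.1, fun T' hT' => ?_⟩
        obtain ⟨S'', rfl⟩ := hall T'
        simpa using hS'.2 _ ((hind S'').1 hT'))
  exact ⟨_, G', ⟨e₀.trans e₁⟩⟩

lemma card_inter_of_slide {V : Type} [DecidableEq V] {X Y : Finset V} {u v : V}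
    (hc : X.card = Y.card) (hne : X ≠ Y) (hY : Y = (X \ {u}) ∪ {v}) :
    (X ∩ Y).card + 1 = X.card := by
  have hu : u ∈ X := by
    by_contra hu
    apply hne
    refine Finset.eq_of_subset_of_card_le ?_ hc.ge
    rw [hY]
    intro a ha
    have : a ≠ u := fun hh => hu (hh ▸ ha)
    simp [ha, this]
  have hv : v ∉ X := by
    intro hv
    apply hne
    symm
    refine Finset.eq_of_subset_of_card_le ?_ hc.le
    rw [hY]
    intro a ha
    simp only [Finset.mem_union, Finset.mem_sdiff, Finset.mem_singleton] at ha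
    rcases ha with ha | rfl
    · exact ha.1
    · exact hv
  have : X ∩ Y = X.erase u := by
    rw [hY]
    ext a
    simp only [Finset.mem_inter, Finset.mem_union, Finset.mem_sdiff, Finset.mem_singleton,
      Finset.mem_erase]
    constructor
    · rintro ⟨ha, h | rfl⟩
      · exact ⟨h.2, ha⟩
      · exact (hv ha).elim
    · rintro ⟨h1, h2⟩
      exact ⟨h2, Or.inl ⟨h2, h1⟩⟩
  rw [this, Finset.card_erase_add_one hu]

/-- In an alpha-graph adjacency is having all but one element in common. -/
lemma alpha_adj_iff {V : Type} [DecidableEq V] (G : SimpleGraph V)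
    (X Y : {S // IsAlphaSet G S}) :
    (slideGraph G (IsAlphaSet G)).Adj X Y ↔ (X.1 ∩ Y.1).card + 1 = X.1.card := by
  have hc : X.1.card = Y.1.card := le_antisymm (Y.2.2 _ X.2.1) (X.2.2 _ Y.2.1)
  simp only [slideGraph, SimpleGraph.fromRel_adj]
  constructor
  · rintro ⟨hne, ⟨u, v, -, h⟩ | ⟨u, v, -, h⟩⟩
    · exact card_inter_of_slide hc (fun hh => hne (Subtype.ext hh)) h
    · rw [Finset.inter_comm, hc]
      exact card_inter_of_slide hc.symm (fun hh => hne (Subtype.ext hh).symm) h
  · intro h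
    have h1 : (X.1 \ Y.1).card = 1 := by
      have := Finset.card_sdiff_add_card_inter X.1 Y.1
      omega
    have h2 : (Y.1 \ X.1).card = 1 := by
      have := Finset.card_sdiff_add_card_inter Y.1 X.1
      rw [Finset.inter_comm] at this
      omega
    obtain ⟨u, hu⟩ := Finset.card_eq_one.1 h1
    obtain ⟨v, hv⟩ := Finset.card_eq_one.1 h2
    have hu' : ∀ a, a ∈ X.1 ∧ a ∉ Y.1 ↔ a = u := fun a => by
      rw [← Finset.mem_sdiff, hu, Finset.mem_singleton]
    have hv' : ∀ a, a ∈ Y.1 ∧ a ∉ X.1 ↔ a = v := fun a => by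
      rw [← Finset.mem_sdiff, hv, Finset.mem_singleton]
    refine ⟨?_, Or.inl ⟨u, v, ?_, ?_⟩⟩
    · rintro rfl
      simp at h
    · by_contra hadj
      have hvY := ((hv' v).2 rfl).1
      have hvX := ((hv' v).2 rfl).2
      have hind : G.IsIndepSet ((insert v X.1 : Finset V) : Set V) := by
        rw [Finset.coe_insert]
        have : ∀ b ∈ (X.1 : Set V), v ≠ b → ¬ G.Adj b v := by
          intro b hb hvb hbv
          by_cases hbY : b ∈ Y.1
          · exact Y.2.1 hbY hvY hvb.symm hbv
          · obtain rfl := (hu' b).1 ⟨hb, hbY⟩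
            exact hadj hbv
        exact Set.Pairwise.insert X.2.1 fun b hb hvb =>
          ⟨fun hh => this b hb hvb hh.symm, this b hb hvb⟩
      have := X.2.2 _ hind
      rw [Finset.card_insert_of_notMem hvX] at this
      omega
    · ext a
      simp only [Finset.mem_union, Finset.mem_sdiff, Finset.mem_singleton, ← hu', ← hv']
      tauto

theorem alphaRealizable_iff {W : Type} (H : SimpleGraph W) :
    AlphaRealizable H ↔ Nonempty W ∧
      ∃ (k n : ℕ) (B : Fin n → Set W),
        (∀ x, {i | x ∈ B i}.ncard = k) ∧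
        (∀ x y, (∀ i, x ∈ B i ↔ y ∈ B i) → x = y) ∧
        (∀ x y, H.Adj x y ↔ {i | x ∈ B i ∧ y ∈ B i}.ncard + 1 = k) ∧
        (∀ J : Set (Fin n), k ≤ J.ncard → (∀ i ∈ J, ∀ j ∈ J, (B i ∩ B j).Nonempty) →
          ∃ x, ∀ i ∈ J, x ∈ B i) := by
  classical
  constructor
  · rintro ⟨n, G, ⟨e⟩⟩
    obtain ⟨A, hA⟩ := G.maximumIndepSet_exists
    have hAa : IsAlphaSet G A := ⟨hA.isIndepSet, hA.maximum⟩
    have hcard : ∀ X : {S // IsAlphaSet G S}, X.1.card = A.card := fun X =>
      le_antisymm (hA.maximum _ X.2.1) (X.2.2 _ hA.isIndepSet)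
    refine ⟨⟨e.symm ⟨A, hAa⟩⟩, A.card, n, fun i => {x | i ∈ (e x).1}, ?_, ?_, ?_, ?_⟩
    · intro x
      rw [← hcard (e x), ← Set.ncard_coe_finset]
      rfl
    · intro x y h
      exact e.injective (Subtype.ext (Finset.ext h))
    · intro x y
      rw [← e.map_adj_iff, alpha_adj_iff, hcard, ← Set.ncard_coe_finset, Finset.coe_inter]
      rfl
    · intro J hJ hJ'
      have hind : G.IsIndepSet ((J.toFinset : Finset _) : Set _) := by
        rw [Set.coe_toFinset]
        intro i hi j hj hij
        obtain ⟨x, hx1, hx2⟩ := hJ' i hi j hj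
        exact (e x).2.1 hx1 hx2 hij
      have hJa : IsAlphaSet G J.toFinset := by
        refine ⟨hind, fun T hT => (hA.maximum T hT).trans ?_⟩
        rwa [Set.ncard_eq_toFinset_card'] at hJ
      refine ⟨e.symm ⟨_, hJa⟩, fun i hi => ?_⟩
      simpa using hi
  · rintro ⟨⟨x₀⟩, k, n, B, h1, h2, h3, h4⟩
    let V := {i : Fin n // (B i).Nonempty}
    let G : SimpleGraph V := SimpleGraph.fromRel fun i j => ¬ (B i.1 ∩ B j.1).Nonempty
    have hG : ∀ i j : V, G.Adj i j ↔ i ≠ j ∧ ¬ (B i.1 ∩ B j.1).Nonempty := by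
      intro i j
      simp only [G, SimpleGraph.fromRel_adj, Set.inter_comm (B j.1), or_self]
    let T : W → Finset V := fun x => Finset.univ.filter fun i => x ∈ B i.1
    have hncard : ∀ S : Finset V, S.card = (Subtype.val '' (S : Set V)).ncard := fun S => by
      rw [Set.ncard_image_of_injective _ Subtype.val_injective, Set.ncard_coe_finset]
    have hT : ∀ x, (T x).card = k := by
      intro x
      rw [hncard, ← h1 x]
      congr 1
      ext i
      simp only [T, Set.mem_image, Finset.coe_filter, Finset.mem_univ, true_and,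
        Set.mem_ofPred_eq]
      constructor
      · rintro ⟨j, hj, rfl⟩; exact hj
      · intro hi; exact ⟨⟨i, x, hi⟩, hi, rfl⟩
    have hTi : ∀ x, G.IsIndepSet ((T x : Finset V) : Set V) := by
      intro x i hi j hj _ hadj
      refine ((hG i j).1 hadj).2 ⟨x, ?_, ?_⟩
      · simpa [T] using hi
      · simpa [T] using hj
    have hbig : ∀ S : Finset V, G.IsIndepSet (S : Set V) → k ≤ S.card → ∃ x, S = T x := by
      intro S hS hk
      obtain ⟨x, hx⟩ := h4 (Subtype.val '' (S : Set V)) (by rwa [← hncard]) (by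
        rintro _ ⟨i, hi, rfl⟩ _ ⟨j, hj, rfl⟩
        by_cases hij : i = j
        · subst hij
          simpa using i.2
        · by_contra hc
          exact hS hi hj hij ((hG i j).2 ⟨hij, hc⟩))
      refine ⟨x, Finset.eq_of_subset_of_card_le ?_ (by rw [hT]; exact hk)⟩
      intro i hi
      simpa [T] using hx i.1 ⟨i, hi, rfl⟩
    have hle : ∀ S : Finset V, G.IsIndepSet (S : Set V) → S.card ≤ k := by
      intro S hS
      by_contra hc
      obtain ⟨x, rfl⟩ := hbig S hS (by omega)
      exact hc (hT x).le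
    have hTa : ∀ x, IsAlphaSet G (T x) := fun x => ⟨hTi x, fun S hS => by
      rw [hT]; exact hle S hS⟩
    let φ : W → {S // IsAlphaSet G S} := fun x => ⟨T x, hTa x⟩
    have hinj : Function.Injective φ := by
      intro x y hxy
      have hxy' : T x = T y := congrArg Subtype.val hxy
      refine h2 x y fun i => ⟨fun hi => ?_, fun hi => ?_⟩
      · have : (⟨i, x, hi⟩ : V) ∈ T x := by simpa [T] using hi
        rw [hxy'] at this
        simpa [T] using this
      · have : (⟨i, y, hi⟩ : V) ∈ T y := by simpa [T] using hi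
        rw [← hxy'] at this
        simpa [T] using this
    have hsurj : Function.Surjective φ := by
      rintro ⟨S, hS⟩
      obtain ⟨x, rfl⟩ := hbig S hS.1 (by rw [← hT x₀]; exact hS.2 _ (hTi x₀))
      exact ⟨x, rfl⟩
    refine alphaRealizable_of_seed H G ⟨⟨Equiv.ofBijective φ ⟨hinj, hsurj⟩, ?_⟩⟩
    intro x y
    rw [Equiv.ofBijective_apply, Equiv.ofBijective_apply, alpha_adj_iff, h3]
    change (T x ∩ T y).card + 1 = (T x).card ↔ _
    rw [hT, hncard]
    have : Subtype.val '' ((T x ∩ T y : Finset V) : Set V) = {i | x ∈ B i ∧ y ∈ B i} := by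
      ext i
      simp only [T, Set.mem_image, Finset.coe_inter, Finset.coe_filter, Finset.mem_univ, true_and,
        Set.mem_ofPred_eq, Set.mem_inter_iff]
      constructor
      · rintro ⟨j, hj, rfl⟩; exact hj
      · intro hi; exact ⟨⟨i, x, hi.1⟩, hi, rfl⟩
    rw [this]

end Pool.Agent.P.MP_5d374e_co
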